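import Pool.Agent.MP_c69980_ag.H43.Spec10

/-! Monodromy for a finite covering given by local sections. -/

open Set Filter Metric Topology

namespace Pool.Agent.MP_c69980_ag.H43

section Mono

variable {m : ℕ} {Y : Type} {Sc : ((Fin m → ℂ) → Y) → (Fin m → ℂ) → Prop}

theorem Mono_uniq (hC : Cov Sc) {W : Set (Fin m → ℂ)} (hW : IsPreconnected W)
    {σ σ' : (Fin m → ℂ) → Y} (h1 : ∀ s ∈ W, Sc σ s) (h2 : ∀ s ∈ W, Sc σ' s)
    {p : Fin m → ℂ} (hp : p ∈ W) (he : σ p = σ' p) : ∀ s ∈ W, σ s = σ' s := by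
  have hsub : W ⊆ {s | ∀ᶠ s' in 𝓝 s, σ s' = σ' s'} ∪ {s | ∀ᶠ s' in 𝓝 s, σ s' ≠ σ' s'} := by
    intro s hs
    obtain ⟨ε, d, ρ, hε, hρ⟩ := hC s
    obtain ⟨j, hj⟩ := (hρ s (mem_ball_self hε)).2.2 σ (h1 s hs)
    obtain ⟨j', hj'⟩ := (hρ s (mem_ball_self hε)).2.2 σ' (h2 s hs)
    by_cases hjj : j = j'
    · left
      subst hjj
      exact hj.trans hj'.symm
    · right
      show ∀ᶠ s' in 𝓝 s, σ s' ≠ σ' s'
      filter_upwards [hj, hj', ball_mem_nhds s hε] with s' a b c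
      rw [a, b]
      exact fun h => hjj ((hρ s' c).2.1 h)
  have hd : Disjoint {s | ∀ᶠ s' in 𝓝 s, σ s' = σ' s'} {s | ∀ᶠ s' in 𝓝 s, σ s' ≠ σ' s'} := by
    rw [Set.disjoint_left]
    intro s a b
    exact b.self_of_nhds a.self_of_nhds
  have hne : (W ∩ {s | ∀ᶠ s' in 𝓝 s, σ s' = σ' s'}).Nonempty := by
    refine ⟨p, hp, ?_⟩
    rcases hsub hp with h | h
    · exact h
    · exact absurd he h.self_of_nhds
  have := hW.subset_left_of_subset_union isOpen_setOfPred_eventually_nhds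
    isOpen_setOfPred_eventually_nhds hd hsub hne
  intro s hs
  exact (this hs).self_of_nhds

theorem Mono_glue [Nonempty Y] (hg : ∀ σ σ' s, Sc σ s → σ =ᶠ[𝓝 s] σ' → Sc σ' s) {ι : Type}
    (U : ι → Set (Fin m → ℂ)) (hU : ∀ i, IsOpen (U i)) (ρ : ι → (Fin m → ℂ) → Y)
    (hρ : ∀ i, ∀ s ∈ U i, Sc (ρ i) s) (hc : ∀ i j, ∀ s ∈ U i, s ∈ U j → ρ i s = ρ j s) :
    ∃ τ, ∀ i, ∀ s ∈ U i, τ s = ρ i s ∧ Sc τ s := by
  classical
  let τ : (Fin m → ℂ) → Y := fun s =>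
    if h : ∃ i, s ∈ U i then ρ h.choose s else Classical.arbitrary Y
  have h1 : ∀ i, ∀ s ∈ U i, τ s = ρ i s := by
    intro i s hs
    have h : ∃ i, s ∈ U i := ⟨i, hs⟩
    simp only [τ, dif_pos h]
    exact hc _ _ s h.choose_spec hs
  refine ⟨τ, fun i s hs => ⟨h1 i s hs, hg (ρ i) τ s (hρ i s hs) ?_⟩⟩
  filter_upwards [(hU i).mem_nhds hs] with s' hs'
  exact (h1 i s' hs').symm

theorem Mono_ext [Nonempty Y] (hg : ∀ σ σ' s, Sc σ s → σ =ᶠ[𝓝 s] σ' → Sc σ' s) (hC : Cov Sc)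
    (R : ℝ) : ∃ δ : ℝ, 0 < δ ∧ ∀ r, 0 < r → r ≤ R → ∀ τ : (Fin m → ℂ) → Y,
      (∀ s ∈ ball (0 : Fin m → ℂ) r, Sc τ s) →
      ∃ τ' : (Fin m → ℂ) → Y, τ' 0 = τ 0 ∧ ∀ s ∈ ball (0 : Fin m → ℂ) (r + δ), Sc τ' s := by
  have hC' := hC
  choose ε d σ hε hσ using hC'
  obtain ⟨δ, hδ, hL⟩ := lebesgue_number_lemma_of_metric (isCompact_closedBall (0 : Fin m → ℂ) R)
    (c := fun c => ball c (ε c)) (fun _ => isOpen_ball)
    (fun x _ => mem_iUnion.2 ⟨x, mem_ball_self (hε x)⟩)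
  refine ⟨δ, hδ, fun r hr hrR τ hτ => ?_⟩
  have hloc : ∀ x : ball (0 : Fin m → ℂ) r, ∃ ρ : (Fin m → ℂ) → Y,
      (∀ s ∈ ball x.1 δ, Sc ρ s) ∧ ∀ s ∈ ball x.1 δ ∩ ball 0 r, ρ s = τ s := by
    rintro ⟨x, hx⟩
    obtain ⟨c, hc⟩ := hL x (closedBall_subset_closedBall hrR (ball_subset_closedBall hx))
    obtain ⟨j, hj⟩ := (hσ c x (hc (mem_ball_self hδ))).2.2 τ (hτ x hx)
    have hs : ∀ s ∈ ball x δ, Sc (σ c j) s := fun s hs => (hσ c s (hc hs)).1 j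
    refine ⟨σ c j, hs, ?_⟩
    exact Mono_uniq hC ((convex_ball x δ).inter (convex_ball 0 r)).isPreconnected
      (fun s h => hs s h.1) (fun s h => hτ s h.2) ⟨mem_ball_self hδ, hx⟩ hj.self_of_nhds.symm
  choose ρ hρ1 hρ2 using hloc
  obtain ⟨τ', hτ'⟩ := Mono_glue hg (fun x : ball (0 : Fin m → ℂ) r => ball x.1 δ)
    (fun _ => isOpen_ball) ρ hρ1 (by
      intro x x' z hz hz'
      have hd : dist x.1 x'.1 < 2 * δ := by
        have := dist_triangle_left x.1 x'.1 z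
        rw [mem_ball] at hz hz'
        linarith
      have m1 : midpoint ℝ x.1 x'.1 ∈ ball x.1 δ := by
        rw [mem_ball, dist_midpoint_left]
        simp only [Real.norm_ofNat]
        linarith
      have m2 : midpoint ℝ x.1 x'.1 ∈ ball x'.1 δ := by
        rw [mem_ball, dist_midpoint_right]
        simp only [Real.norm_ofNat]
        linarith
      have m3 : midpoint ℝ x.1 x'.1 ∈ ball (0 : Fin m → ℂ) r :=
        (convex_ball (0 : Fin m → ℂ) r).midpoint_mem x.2 x'.2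
      exact Mono_uniq hC ((convex_ball x.1 δ).inter (convex_ball x'.1 δ)).isPreconnected
        (fun s h => hρ1 x s h.1) (fun s h => hρ1 x' s h.2) ⟨m1, m2⟩
        ((hρ2 x _ ⟨m1, m3⟩).trans (hρ2 x' _ ⟨m2, m3⟩).symm) z ⟨hz, hz'⟩)
  refine ⟨τ', ?_, fun y hy => ?_⟩
  · have h0 : (0 : Fin m → ℂ) ∈ ball (0 : Fin m → ℂ) r := mem_ball_self hr
    exact (hτ' ⟨0, h0⟩ 0 (mem_ball_self hδ)).1.trans (hρ2 ⟨0, h0⟩ 0 ⟨mem_ball_self hδ, h0⟩)
  · have hp : 0 < r + δ := by linarith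
    rw [mem_ball_zero_iff] at hy
    have hx : (r / (r + δ)) • y ∈ ball (0 : Fin m → ℂ) r := by
      rw [mem_ball_zero_iff, norm_smul, Real.norm_of_nonneg (by positivity), div_mul_eq_mul_div,
        div_lt_iff₀ hp]
      exact mul_lt_mul_of_pos_left hy hr
    refine (hτ' ⟨_, hx⟩ y ?_).2
    have e : y - (r / (r + δ)) • y = (δ / (r + δ)) • y := by
      have : δ / (r + δ) = 1 - r / (r + δ) := by field_simp; ring
      rw [this, sub_smul, one_smul]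
    show y ∈ ball ((r / (r + δ)) • y) δ
    rw [mem_ball, dist_eq_norm, e, norm_smul, Real.norm_of_nonneg (by positivity),
      div_mul_eq_mul_div, div_lt_iff₀ hp]
    exact mul_lt_mul_of_pos_left hy hδ

theorem Mono_ex (hg : ∀ σ σ' s, Sc σ s → σ =ᶠ[𝓝 s] σ' → Sc σ' s) (hC : Cov Sc) :
    ∃ τ, ∀ s, Sc τ s := by
  obtain ⟨ε, d, σ, hε, hσ⟩ := hC 0
  have : Nonempty Y := ⟨σ 0 0⟩
  have hP : ∀ R : ℝ, 0 < R → ∃ τ : (Fin m → ℂ) → Y, τ 0 = σ 0 0 ∧
      ∀ s ∈ ball (0 : Fin m → ℂ) R, Sc τ s := by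
    intro R hR
    obtain ⟨δ, hδ, hx⟩ := Mono_ext hg hC R
    have hn : ∀ n : ℕ, ∃ τ : (Fin m → ℂ) → Y, τ 0 = σ 0 0 ∧
        ∀ s ∈ ball (0 : Fin m → ℂ) (min R (ε + n * δ)), Sc τ s := by
      intro n
      induction n with
      | zero =>
        refine ⟨σ 0, rfl, fun s hs => (hσ s (ball_subset_ball ?_ hs)).1 0⟩
        simp
      | succ n ih =>
        obtain ⟨τ, h0, hτ⟩ := ih
        obtain ⟨τ', h0', hτ'⟩ := hx _ (lt_min hR (by positivity)) (min_le_left _ _) τ hτ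
        refine ⟨τ', h0'.trans h0, fun s hs => hτ' s (ball_subset_ball ?_ hs)⟩
        push_cast
        rcases le_total R (ε + n * δ) with h | h
        · rw [min_eq_left h]
          exact (min_le_left _ _).trans (by linarith)
        · rw [min_eq_right h]
          exact (min_le_right _ _).trans (by linarith)
    obtain ⟨n, hn'⟩ := exists_nat_ge (R / δ)
    obtain ⟨τ, h0, hτ⟩ := hn n
    refine ⟨τ, h0, fun s hs => hτ s ?_⟩
    rw [div_le_iff₀ hδ] at hn'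
    rwa [min_eq_left (by linarith)]
  choose ρ hρ0 hρ using fun n : ℕ => hP (n + 1) (by positivity)
  obtain ⟨τ, hτ⟩ := Mono_glue hg (fun n : ℕ => ball (0 : Fin m → ℂ) (n + 1))
    (fun _ => isOpen_ball) ρ hρ (by
      intro i j z hz hz'
      exact Mono_uniq hC ((convex_ball _ _).inter (convex_ball _ _)).isPreconnected
        (fun s h => hρ i s h.1) (fun s h => hρ j s h.2)
        (p := 0) ⟨mem_ball_self (by positivity), mem_ball_self (by positivity)⟩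
        ((hρ0 i).trans (hρ0 j).symm) z ⟨hz, hz'⟩)
  refine ⟨τ, fun s => ?_⟩
  obtain ⟨n, hn⟩ := exists_nat_ge ‖s‖
  exact (hτ n s (by rw [mem_ball_zero_iff]; linarith)).2

theorem Mono_fin (hC : Cov Sc) : Finite {τ : (Fin m → ℂ) → Y // ∀ s, Sc τ s} := by
  obtain ⟨ε, d, σ, hε, hσ⟩ := hC 0
  choose j hj using fun τ : {τ : (Fin m → ℂ) → Y // ∀ s, Sc τ s} =>
    (hσ 0 (mem_ball_self hε)).2.2 τ.1 (τ.2 0)
  refine Finite.of_injective j fun τ τ' h => Subtype.ext (funext fun s => ?_)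
  refine Mono_uniq hC isPreconnected_univ (fun s _ => τ.2 s) (fun s _ => τ'.2 s)
    (mem_univ 0) ?_ s (mem_univ s)
  rw [(hj τ).self_of_nhds, (hj τ').self_of_nhds, h]

end Mono

theorem sMono : SMono := by
  intro m Y Sc _ hg hC
  obtain ⟨τ, hτ⟩ := Mono_ex hg hC
  refine ⟨τ, hτ, fun Λ hΛ => ?_⟩
  have := Mono_fin hC
  refine ⟨Nat.card (Equiv.Perm {τ : (Fin m → ℂ) → Y // ∀ s, Sc τ s}), Nat.card_pos,
    fun x hx s => ?_⟩
  let T : {τ : (Fin m → ℂ) → Y // ∀ s, Sc τ s} → {τ : (Fin m → ℂ) → Y // ∀ s, Sc τ s} :=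
    fun ρ => ⟨fun s => ρ.1 (s + x), fun s => hΛ x hx ρ.1 s (ρ.2 _)⟩
  have hT : Function.Injective T := by
    intro ρ ρ' h
    refine Subtype.ext (funext fun s => ?_)
    have := congrFun (congrArg Subtype.val h) (s - x)
    simpa [T] using this
  let e : Equiv.Perm {τ : (Fin m → ℂ) → Y // ∀ s, Sc τ s} :=
    Equiv.ofBijective T (Finite.injective_iff_bijective.1 hT)
  have hp : ∀ (n : ℕ) (s : Fin m → ℂ), ((e ^ n) ⟨τ, hτ⟩).1 s = τ (s + n • x) := by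
    intro n
    induction n with
    | zero => intro s; simp
    | succ n ih =>
      intro s
      rw [pow_succ', Equiv.Perm.mul_apply]
      show ((e ^ n) ⟨τ, hτ⟩).1 (s + x) = _
      rw [ih, succ_nsmul', add_assoc]
  rw [← hp, pow_card_eq_one']
  rfl

end Pool.Agent.MP_c69980_ag.H43
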